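import Pool.Agent.N483.KM.StmP
import Pool.Agent.N459.KM.OAP

/-!
# Project KM, part PAP: approximation by finite functions, with linear functionals
(after `Pool/Agent/N459/KM/OAP.lean`)
-/

set_option autoImplicit false

namespace Pool.Agent.N614.KM

open MeasureTheory Set Filter Topology
open scoped ENNReal InnerProductSpace

open Pool.Agent.R754.KG (E)
open Pool.Agent.N483.KM
open Pool.Agent.N459.KM (G G_le_self G_ne_top G_mono G_convexOn G_tendsto bdd_of_nested)

theorem PR_closed {r n N : ℕ} {v : Fin N → E n} {V : Fin r → Fin N → ℝ → ℝ}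
    (hV : ∀ j i, ConvexOn ℝ univ (V j i)) (s : Fin r → ℝ) : IsClosed (PR v V s) := by
  have hc : ∀ j i, Continuous (V j i) := by
    intro j i
    rw [← continuousOn_univ]
    exact (hV j i).continuousOn isOpen_univ
  have : PR v V s = ⋂ j, {x : E n | ∑ i, V j i ⟪v i, x⟫_ℝ ≤ s j} := by
    ext x
    simp [PR]
  rw [this]
  refine isClosed_iInter fun j => isClosed_le ?_ continuous_const
  refine continuous_finsetSum _ fun i _ => (hc j i).comp ?_
  fun_prop

theorem PR_convex {r n N : ℕ} {v : Fin N → E n} {V : Fin r → Fin N → ℝ → ℝ}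
    (hV : ∀ j i, ConvexOn ℝ univ (V j i)) (s : Fin r → ℝ) : Convex ℝ (PR v V s) := by
  intro x hx y hy a b ha hb hab j
  have h1 : ∀ i, V j i ⟪v i, a • x + b • y⟫_ℝ ≤ a * V j i ⟪v i, x⟫_ℝ + b * V j i ⟪v i, y⟫_ℝ := by
    intro i
    have := (hV j i).2 (mem_univ ⟪v i, x⟫_ℝ) (mem_univ ⟪v i, y⟫_ℝ) ha hb hab
    rw [inner_add_right, real_inner_smul_right, real_inner_smul_right]
    simpa using this
  calc ∑ i, V j i ⟪v i, a • x + b • y⟫_ℝ ≤ ∑ i, (a * V j i ⟪v i, x⟫_ℝ + b * V j i ⟪v i, y⟫_ℝ) :=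
        Finset.sum_le_sum fun i _ => h1 i
    _ = a * ∑ i, V j i ⟪v i, x⟫_ℝ + b * ∑ i, V j i ⟪v i, y⟫_ℝ := by
        rw [Finset.sum_add_distrib, Finset.mul_sum, Finset.mul_sum]
    _ ≤ a * s j + b * s j := add_le_add (mul_le_mul_of_nonneg_left (hx j) ha)
        (mul_le_mul_of_nonneg_left (hy j) hb)
    _ = s j := by rw [← add_mul, hab, one_mul]

theorem q_convex (R : ℝ) : ConvexOn ℝ univ fun t : ℝ => max (|t| - R) 0 ^ 2 := by
  have h1 : ConvexOn ℝ univ fun t : ℝ => max (|t| - R) 0 := by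
    have h0 : ConvexOn ℝ univ fun t : ℝ => |t| - R := by
      have := (convexOn_norm (E := ℝ) convex_univ).add_const (-R)
      refine this.congr ?_
      intro t _
      simp [Real.norm_eq_abs, sub_eq_add_neg]
    exact h0.sup (convexOn_const 0 convex_univ)
  exact h1.pow (fun t _ => le_max_right _ _) 2

theorem t_PAP : S_PAP := by
  classical
  intro r n N v V e hV hb hne
  obtain ⟨x0, hx0⟩ := hne
  have hx0' : ∀ j, ∑ i, V j i ⟪v i, x0⟫_ℝ ≤ e j := hx0
  obtain ⟨U, hU⟩ : ∃ U : ℕ → Fin r → Fin N → ℝ → ℝ, ∀ m j i t, U m j i t =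
      if e j = ⊤ then 0 else (G (V j i) m t).toReal := ⟨_, fun _ _ _ _ => rfl⟩
  obtain ⟨f, hf⟩ : ∃ f : ℕ → Fin r → ℝ, ∀ m j, f m j =
      if e j = ⊤ then 1 else (e j).toReal + 1 / ((m : ℝ) + 1) := ⟨_, fun _ _ => rfl⟩
  have hfin : ∀ j, e j ≠ ⊤ → ∀ i, V j i ⟪v i, x0⟫_ℝ ≠ ⊤ := by
    intro j hj i
    refine ne_top_of_le_ne_top hj ((?_ : V j i ⟪v i, x0⟫_ℝ ≤ _).trans (hx0' j))
    exact Finset.single_le_sum (f := fun i => V j i ⟪v i, x0⟫_ℝ) (fun _ _ => zero_le)
      (Finset.mem_univ i)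
  have hconv : ∀ m j i, ConvexOn ℝ univ (U m j i) := by
    intro m j i
    by_cases hj : e j = ⊤
    · have : U m j i = fun _ => 0 := by
        funext t
        rw [hU, if_pos hj]
      rw [this]
      exact convexOn_const 0 convex_univ
    · have : U m j i = fun t => (G (V j i) m t).toReal := by
        funext t
        rw [hU, if_neg hj]
      rw [this]
      exact G_convexOn (hV j i) (hfin j hj i) m
  have hnn : ∀ m j i t, 0 ≤ U m j i t := by
    intro m j i t
    rw [hU]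
    split_ifs
    · exact le_rfl
    · exact ENNReal.toReal_nonneg
  -- sums
  have hsum : ∀ m j (x : E n), e j ≠ ⊤ →
      ∑ i, U m j i ⟪v i, x⟫_ℝ = (∑ i, G (V j i) m ⟪v i, x⟫_ℝ).toReal := by
    intro m j x hj
    rw [ENNReal.toReal_sum fun i _ => G_ne_top (hfin j hj i) m _]
    refine Finset.sum_congr rfl fun i _ => ?_
    rw [hU, if_neg hj]
  have hsumtop : ∀ m j (x : E n), e j ≠ ⊤ → ∑ i, G (V j i) m ⟪v i, x⟫_ℝ ≠ ⊤ := by
    intro m j x hj
    rw [ENNReal.sum_ne_top]
    exact fun i _ => G_ne_top (hfin j hj i) m _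
  have hslater : ∀ m j, ∑ i, U m j i ⟪v i, x0⟫_ℝ < f m j := by
    intro m j
    by_cases hj : e j = ⊤
    · rw [hf, if_pos hj]
      simp only [hU, if_pos hj, Finset.sum_const_zero]
      exact one_pos
    · rw [hf, if_neg hj, hsum m j x0 hj]
      have h1 : ∑ i, G (V j i) m ⟪v i, x0⟫_ℝ ≤ e j :=
        (Finset.sum_le_sum fun i _ => G_le_self _ _ _).trans (hx0' j)
      have h2 := ENNReal.toReal_mono hj h1
      have h3 : 0 < 1 / ((m : ℝ) + 1) := by positivity
      linarith
  have hsub : ∀ m, PR v (U (m + 1)) (f (m + 1)) ⊆ PR v (U m) (f m) := by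
    intro m x hx j
    have h1 := hx j
    by_cases hj : e j = ⊤
    · rw [hf, if_pos hj]
      simp only [hU, if_pos hj, Finset.sum_const_zero]
      exact zero_le_one
    · rw [hsum (m + 1) j x hj, hf, if_neg hj] at h1
      rw [hsum m j x hj, hf, if_neg hj]
      have h2 : ∑ i, G (V j i) m ⟪v i, x⟫_ℝ ≤ ∑ i, G (V j i) (m + 1) ⟪v i, x⟫_ℝ :=
        Finset.sum_le_sum fun i _ => G_mono _ _ (Nat.le_succ m)
      have h3 := ENNReal.toReal_mono (hsumtop (m + 1) j x hj) h2
      have h4 : 1 / (((m + 1 : ℕ) : ℝ) + 1) ≤ 1 / ((m : ℝ) + 1) := by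
        apply one_div_le_one_div_of_le (by positivity)
        push_cast
        linarith
      linarith
  have hinter : ⋂ m, PR v (U m) (f m) = PX v V e := by
    ext x
    rw [mem_iInter]
    constructor
    · intro h j
      by_cases hj : e j = ⊤
      · rw [hj]
        exact le_top
      · have h1 : ∀ m, ∑ i, G (V j i) m ⟪v i, x⟫_ℝ ≤
            e j + ENNReal.ofReal (1 / ((m : ℝ) + 1)) := by
          intro m
          have h2 := h m j
          rw [hsum m j x hj, hf, if_neg hj] at h2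
          have h3 := ENNReal.ofReal_le_ofReal h2
          rw [ENNReal.ofReal_toReal (hsumtop m j x hj),
            ENNReal.ofReal_add ENNReal.toReal_nonneg (by positivity),
            ENNReal.ofReal_toReal hj] at h3
          exact h3
        have h2 : Tendsto (fun m => ∑ i, G (V j i) m ⟪v i, x⟫_ℝ) atTop
            (𝓝 (∑ i, V j i ⟪v i, x⟫_ℝ)) :=
          tendsto_finsetSum _ fun i _ => G_tendsto (hV j i) _
        have h3 : Tendsto (fun m : ℕ => e j + ENNReal.ofReal (1 / ((m : ℝ) + 1))) atTop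
            (𝓝 (e j + ENNReal.ofReal 0)) :=
          tendsto_const_nhds.add (ENNReal.tendsto_ofReal tendsto_one_div_add_atTop_nhds_zero_nat)
        rw [ENNReal.ofReal_zero, add_zero] at h3
        exact le_of_tendsto_of_tendsto' h2 h3 h1
    · intro h m j
      by_cases hj : e j = ⊤
      · rw [hf, if_pos hj]
        simp only [hU, if_pos hj, Finset.sum_const_zero]
        exact zero_le_one
      · rw [hf, if_neg hj, hsum m j x hj]
        have h1 : ∑ i, G (V j i) m ⟪v i, x⟫_ℝ ≤ e j :=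
          (Finset.sum_le_sum fun i _ => G_le_self _ _ _).trans (h j)
        have h2 := ENNReal.toReal_mono hj h1
        have h3 : 0 < 1 / ((m : ℝ) + 1) := by positivity
        linarith
  obtain ⟨m0, hm0⟩ := bdd_of_nested (fun m => PR v (U m) (f m)) (fun m => PR_closed (hconv m) _)
    (fun m => PR_convex (hconv m) _) hsub x0 (fun m j => (hslater m j).le)
    (by rw [hinter]; exact hb)
  have hanti : ∀ m k, PR v (U (m + k)) (f (m + k)) ⊆ PR v (U m) (f m) := by
    intro m k
    induction k with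
    | zero => exact subset_rfl
    | succ k ih => exact (hsub (m + k)).trans ih
  -- the bound for the functionals
  obtain ⟨R, hR⟩ : ∃ R : ℝ, ∀ x ∈ PR v (U m0) (f m0), ∀ i, |⟪v i, x⟫_ℝ| ≤ R := by
    obtain ⟨ρ, hρ⟩ := hm0.exists_norm_le
    refine ⟨∑ i, ‖v i‖ * |ρ|, fun x hx i => ?_⟩
    have h1 := abs_real_inner_le_norm (v i) x
    have h2 := (hρ x hx).trans (le_abs_self ρ)
    calc |⟪v i, x⟫_ℝ| ≤ ‖v i‖ * ‖x‖ := h1
      _ ≤ ‖v i‖ * |ρ| := mul_le_mul_of_nonneg_left h2 (norm_nonneg _)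
      _ ≤ _ := Finset.single_le_sum (f := fun i => ‖v i‖ * |ρ|)
          (fun i _ => mul_nonneg (norm_nonneg _) (abs_nonneg _)) (Finset.mem_univ i)
  obtain ⟨W, hW⟩ : ∃ W : ℕ → Fin r → Fin N → ℝ → ℝ, ∀ m j i t, W m j i t =
      U (m0 + m) j i t + max (|t| - R) 0 ^ 2 := ⟨_, fun _ _ _ _ => rfl⟩
  have hq : ∀ t : ℝ, 0 ≤ max (|t| - R) 0 ^ 2 := fun t => sq_nonneg _
  have hin : ∀ m (x : E n), x ∈ PR v (U m0) (f m0) → ∀ j,
      ∑ i, W m j i ⟪v i, x⟫_ℝ = ∑ i, U (m0 + m) j i ⟪v i, x⟫_ℝ := by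
    intro m x hx j
    refine Finset.sum_congr rfl fun i _ => ?_
    have h1 := hR x hx i
    rw [hW, max_eq_right (by linarith)]
    ring
  have heq : ∀ m, PR v (W m) (f (m0 + m)) = PR v (U (m0 + m)) (f (m0 + m)) := by
    intro m
    apply subset_antisymm
    · intro x hx j
      refine le_trans (Finset.sum_le_sum fun i _ => ?_) (hx j)
      rw [hW]
      linarith [hq ⟪v i, x⟫_ℝ]
    · intro x hx j
      rw [hin m x (hanti m0 m hx) j]
      exact hx j
  refine ⟨W, fun m => f (m0 + m), ?_, ?_, fun m => ⟨R, ?_⟩, ?_, ?_, ?_, ?_⟩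
  · intro m j i
    have : W m j i = fun t => U (m0 + m) j i t + max (|t| - R) 0 ^ 2 := by
      funext t
      rw [hW]
    rw [this]
    exact (hconv (m0 + m) j i).add (q_convex R)
  · intro m j i t
    rw [hW]
    exact add_nonneg (hnn _ _ _ _) (hq t)
  · intro j i t
    rw [hW]
    linarith [hnn (m0 + m) j i t]
  · intro m
    rw [heq]
    exact hm0.subset (hanti m0 m)
  · intro m
    refine ⟨x0, fun j => ?_⟩
    have hx : x0 ∈ PR v (U m0) (f m0) := fun j => (hslater m0 j).le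
    rw [hin m x0 hx j]
    exact hslater (m0 + m) j
  · intro m
    rw [heq, heq]
    exact hsub (m0 + m)
  · rw [← hinter]
    apply subset_antisymm
    · intro x hx
      rw [mem_iInter] at hx ⊢
      intro m
      have h1 : x ∈ PR v (U (m0 + m)) (f (m0 + m)) := by
        have := hx m
        rwa [heq] at this
      rw [add_comm] at h1
      exact hanti m m0 h1
    · intro x hx
      rw [mem_iInter] at hx ⊢
      intro m
      rw [heq]
      exact hx (m0 + m)

end Pool.Agent.N614.KM
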